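import Mathlib
import Pool.Agent.Lib.Skein.Defs

set_option autoImplicit false

/-!
# The bracket operators of a representation of the cups and caps
-/

namespace Pool.Agent.Lib.Skein3

open Pool.Agent.Lib.Skein

variable {K : Type*} [Field K] {E : Type*} [Ring E] [Algebra K E]

/-- Temperley-Lieb relations for cups `U i` and caps `N i` (words are read from left to right). -/
structure TL (A : K) (U N : ℕ → E) : Prop where
  hA : A ≠ 0
  zig : ∀ i, U (i + 1) * N i = 1
  zag : ∀ i, U i * N (i + 1) = 1
  loop : ∀ i, U i * N i = (-(A ^ 2) - (A⁻¹) ^ 2) • (1 : E)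
  cupcup : ∀ i j, U (i + j) * U i = U i * U (i + 2 + j)
  cupcap : ∀ i j, N (i + j) * U i = U i * N (i + 2 + j)
  capcup : ∀ i j, U (i + 2 + j) * N i = N i * U (i + j)
  capcap : ∀ i j, N (i + 2 + j) * N i = N i * N (i + j)

/-- the operator of a letter -/
def opL (A : K) (U N : ℕ → E) : Skein.Kind × ℕ → E
  | (.cup, i) => U i
  | (.cap, i) => N i
  | (.cr true, i) => A • (1 : E) + A⁻¹ • (N i * U i)
  | (.cr false, i) => A⁻¹ • (1 : E) + A • (N i * U i)

/-- the operator of a word -/
def rho (A : K) (U N : ℕ → E) (w : Word) : E := (w.map (opL A U N)).prod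

theorem rho_append (A : K) (U N : ℕ → E) (u v : Word) :
    rho A U N (u ++ v) = rho A U N u * rho A U N v := by
  simp [rho]

theorem rho_cons (A : K) (U N : ℕ → E) (l : Skein.Kind × ℕ) (v : Word) :
    rho A U N (l :: v) = opL A U N l * rho A U N v := by
  simp [rho]

theorem rho_nil (A : K) (U N : ℕ → E) : rho A U N [] = 1 := by
  simp [rho]

section

variable {A : K} {U N : ℕ → E} (h : TL A U N)

include h

theorem e_sq (i : ℕ) : (N i * U i) * (N i * U i) = (-(A ^ 2) - (A⁻¹) ^ 2) • (N i * U i) := by
  rw [mul_assoc, ← mul_assoc (U i), h.loop]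
  simp only [smul_mul_assoc, mul_smul_comm, one_mul]

theorem efe (i : ℕ) : (N i * U i) * (N (i + 1) * U (i + 1)) * (N i * U i) = N i * U i := by
  have : (N i * U i) * (N (i + 1) * U (i + 1)) * (N i * U i) =
      N i * (U i * N (i + 1)) * (U (i + 1) * N i) * U i := by noncomm_ring
  rw [this, h.zag, h.zig]; simp

theorem fef (i : ℕ) : (N (i + 1) * U (i + 1)) * (N i * U i) * (N (i + 1) * U (i + 1)) =
    N (i + 1) * U (i + 1) := by
  have : (N (i + 1) * U (i + 1)) * (N i * U i) * (N (i + 1) * U (i + 1)) =
      N (i + 1) * (U (i + 1) * N i) * (U i * N (i + 1)) * U (i + 1) := by noncomm_ring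
  rw [this, h.zag, h.zig]; simp

theorem cup_e (i j : ℕ) : (N (i + j) * U (i + j)) * U i = U i * (N (i + 2 + j) * U (i + 2 + j)) := by
  rw [mul_assoc, h.cupcup, ← mul_assoc, h.cupcap, mul_assoc]

theorem cap_e (i j : ℕ) : (N (i + 2 + j) * U (i + 2 + j)) * N i = N i * (N (i + j) * U (i + j)) := by
  rw [mul_assoc, h.capcup, ← mul_assoc, h.capcap, mul_assoc]

theorem e_cup (i j : ℕ) : U (i + 2 + j) * (N i * U i) = (N i * U i) * U (i + 2 + j) := by
  rw [← mul_assoc, h.capcup, mul_assoc, h.cupcup, mul_assoc]

theorem e_cap (i j : ℕ) : N (i + 2 + j) * (N i * U i) = (N i * U i) * N (i + 2 + j) := by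
  rw [← mul_assoc, h.capcap, mul_assoc, h.cupcap, mul_assoc]

theorem e_e (i j : ℕ) : (N (i + 2 + j) * U (i + 2 + j)) * (N i * U i) =
    (N i * U i) * (N (i + 2 + j) * U (i + 2 + j)) := by
  rw [mul_assoc, e_cup h, ← mul_assoc, e_cap h, mul_assoc]

theorem r2_pos (i : ℕ) : (A • (1 : E) + A⁻¹ • (N i * U i)) * (A⁻¹ • (1 : E) + A • (N i * U i)) = 1 := by
  have h1 := e_sq h i
  have hA := h.hA
  set e := N i * U i
  simp only [mul_add, add_mul, smul_mul_assoc, mul_smul_comm, one_mul, mul_one, smul_add, smul_smul,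
    h1]
  match_scalars <;> field_simp <;> ring

theorem r2_neg (i : ℕ) : (A⁻¹ • (1 : E) + A • (N i * U i)) * (A • (1 : E) + A⁻¹ • (N i * U i)) = 1 := by
  have h1 := e_sq h i
  have hA := h.hA
  set e := N i * U i
  simp only [mul_add, add_mul, smul_mul_assoc, mul_smul_comm, one_mul, mul_one, smul_add, smul_smul,
    h1]
  match_scalars <;> field_simp <;> ring

theorem r3_pos (i : ℕ) :
    (A • (1 : E) + A⁻¹ • (N i * U i)) * ((A • (1 : E) + A⁻¹ • (N (i + 1) * U (i + 1))) *
      (A • (1 : E) + A⁻¹ • (N i * U i))) =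
    (A • (1 : E) + A⁻¹ • (N (i + 1) * U (i + 1))) * ((A • (1 : E) + A⁻¹ • (N i * U i)) *
      (A • (1 : E) + A⁻¹ • (N (i + 1) * U (i + 1)))) := by
  have h1 := e_sq h i
  have h2 := e_sq h (i + 1)
  have h3 := efe h i
  have h4 := fef h i
  have hA := h.hA
  set e := N i * U i
  set f := N (i + 1) * U (i + 1)
  rw [mul_assoc] at h3 h4
  simp only [mul_add, add_mul, smul_mul_assoc, mul_smul_comm, one_mul, mul_one, smul_add, smul_smul,
    h1, h2, h3, h4]
  match_scalars <;> field_simp <;> ring

theorem r3_neg (i : ℕ) :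
    (A⁻¹ • (1 : E) + A • (N i * U i)) * ((A⁻¹ • (1 : E) + A • (N (i + 1) * U (i + 1))) *
      (A⁻¹ • (1 : E) + A • (N i * U i))) =
    (A⁻¹ • (1 : E) + A • (N (i + 1) * U (i + 1))) * ((A⁻¹ • (1 : E) + A • (N i * U i)) *
      (A⁻¹ • (1 : E) + A • (N (i + 1) * U (i + 1)))) := by
  have h1 := e_sq h i
  have h2 := e_sq h (i + 1)
  have h3 := efe h i
  have h4 := fef h i
  have hA := h.hA
  set e := N i * U i
  set f := N (i + 1) * U (i + 1)
  rw [mul_assoc] at h3 h4
  simp only [mul_add, add_mul, smul_mul_assoc, mul_smul_comm, one_mul, mul_one, smul_add, smul_smul,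
    h1, h2, h3, h4]
  match_scalars <;> field_simp <;> ring

theorem rho_move {r s : Word} (hm : Move r s) : rho A U N r = rho A U N s := by
  cases hm with
  | zig i => simp [rho, opL, h.zig]
  | zag i => simp [rho, opL, h.zag]
  | r2 i s =>
    cases s
    · simpa [rho, opL] using r2_neg h i
    · simpa [rho, opL] using r2_pos h i
  | r3 i s =>
    cases s
    · simpa [rho, opL] using r3_neg h i
    · simpa [rho, opL] using r3_pos h i
  | slideCup i s =>
    cases s <;>
      (simp only [rho, opL, List.map, List.prod_cons, List.prod_nil, mul_one, mul_add,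
        mul_smul_comm, ← mul_assoc, h.zig, h.zag, one_mul, Bool.not_true, Bool.not_false]
       abel)
  | slideCap i s =>
    cases s <;>
      (simp only [rho, opL, List.map, List.prod_cons, List.prod_nil, mul_one, add_mul,
        smul_mul_assoc, mul_assoc, h.zig, h.zag, one_mul, Bool.not_true, Bool.not_false]
       abel)
  | curl i s =>
    have h1 : U (i + 1) * (N i * U i * N (i + 1)) = 1 := by
      rw [mul_assoc, h.zag, mul_one, h.zig]
    have h2 : U i * (N (i + 1) * U (i + 1) * N i) = 1 := by
      rw [mul_assoc, h.zig, mul_one, h.zag]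
    cases s <;>
      simp only [rho, opL, List.map, List.prod_cons, List.prod_nil, mul_one, add_mul, mul_add,
        smul_mul_assoc, mul_smul_comm, one_mul, h1, h2, h.loop]
  | far f g i j =>
    have k1 := cup_e h i j
    have k2 := cap_e h i j
    have k3 := e_cup h i j
    have k4 := e_cap h i j
    have k5 := e_e h i j
    cases f with
    | cup =>
      simp only [Kind.inn, Kind.out, Nat.add_zero]
      cases g with
      | cup => simpa [rho, opL] using h.cupcup i j
      | cap => simpa [rho, opL] using h.cupcap i j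
      | cr t => cases t <;> simp [rho, opL, mul_add, add_mul, k1]
    | cap =>
      simp only [Kind.inn, Kind.out, Nat.add_zero]
      cases g with
      | cup => simpa [rho, opL] using h.capcup i j
      | cap => simpa [rho, opL] using h.capcap i j
      | cr t => cases t <;> simp [rho, opL, mul_add, add_mul, k2]
    | cr t' =>
      simp only [Kind.inn, Kind.out]
      cases g with
      | cup => cases t' <;> simp [rho, opL, mul_add, add_mul, k3]
      | cap => cases t' <;> simp [rho, opL, mul_add, add_mul, k4]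
      | cr t =>
        cases t' <;> cases t <;>
        (simp only [rho, opL, List.map, List.prod_cons, List.prod_nil, mul_one, add_mul, mul_add,
          smul_mul_assoc, mul_smul_comm, one_mul, smul_add, smul_smul, k5]
         module)

theorem rho_word (u v : Word) {r s : Word} (hm : Move r s) :
    rho A U N (u ++ r ++ v) = rho A U N (u ++ s ++ v) := by
  rw [rho_append, rho_append, rho_append, rho_append, rho_move h hm]

/-- the framing relation -/
theorem rho_curl (i : ℕ) : rho A U N [(.cup, i), (.cr false, i)] = (-(A ^ 3)) • U i := by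
  have hA := h.hA
  simp only [rho, opL, List.map, List.prod_cons, List.prod_nil, mul_one, mul_add, mul_smul_comm,
    ← mul_assoc, h.loop, smul_mul_assoc, one_mul, smul_smul]
  match_scalars
  field_simp
  ring

/-- the 3-move -/
theorem rho_three (hA12 : A ^ 8 - A ^ 4 + 1 = 0) (i : ℕ) :
    rho A U N [(.cr true, i), (.cr true, i), (.cr true, i)] = A ^ 3 • (1 : E) := by
  have hA := h.hA
  have h1 := e_sq h i
  simp only [rho, opL, List.map, List.prod_cons, List.prod_nil, mul_one]
  set e := N i * U i
  simp only [mul_add, add_mul, smul_mul_assoc, mul_smul_comm, one_mul, mul_one, smul_add, smul_smul,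
    h1]
  match_scalars
  · ring
  · field_simp
    linear_combination (A ^ 0) * hA12

end

end Pool.Agent.Lib.Skein3
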