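import Mathlib
import Pool.Agent.Lib.Skein3.Bracket

set_option autoImplicit false
set_option linter.unusedTactic false
set_option linter.unreachableTactic false
set_option linter.unusedSimpArgs false

/-!
# The three state Potts representation of the cups and caps

The states are the colourings of the shaded regions by `ZMod 3`.
-/

noncomputable section

namespace Pool.Agent.Lib.Skein3

open Pool.Agent.Lib.Skein

/-- states: colours of the shaded regions (only finitely many matter) -/
abbrev St := ℕ → ZMod 3

/-- insert the entry `c` at position `m` -/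
def ins1 (m : ℕ) (c : ZMod 3) (s : St) : St :=
  fun j => if j < m then s j else if j = m then c else s (j - 1)

/-- double the entry at position `m` -/
def dup (m : ℕ) (s : St) : St := fun j => if j ≤ m then s j else s (j - 1)

/-- delete the entry at position `m` -/
def del1 (m : ℕ) (s : St) : St := fun j => if j < m then s j else s (j + 1)

section states

variable (m e : ℕ) (c c' : ZMod 3) (s : St)

@[simp] theorem ins1_self : ins1 m c s m = c := by simp [ins1]
@[simp] theorem ins1_succ : ins1 m c s (m + 1) = s m := by simp [ins1]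
@[simp] theorem dup_self : dup m s m = s m := by simp [dup]
@[simp] theorem dup_succ : dup m s (m + 1) = s m := by simp [dup]

theorem ins1_gt {j : ℕ} (h : m < j) : ins1 m c s j = s (j - 1) := by
  have h1 : ¬ j < m := by omega
  have h2 : j ≠ m := by omega
  simp [ins1, h1, h2]
theorem ins1_lt {j : ℕ} (h : j < m) : ins1 m c s j = s j := by simp [ins1, h]
theorem dup_gt {j : ℕ} (h : m < j) : dup m s j = s (j - 1) := by
  have h1 : ¬ j ≤ m := by omega
  simp [dup, h1]
theorem dup_le {j : ℕ} (h : j ≤ m) : dup m s j = s j := by simp [dup, h]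
theorem del1_lt {j : ℕ} (h : j < m) : del1 m s j = s j := by simp [del1, h]
theorem del1_ge {j : ℕ} (h : m ≤ j) : del1 m s j = s (j + 1) := by
  have h1 : ¬ j < m := by omega
  simp [del1, h1]

theorem del_ins : del1 m (ins1 m c s) = s := by
  funext j; simp only [ins1, del1]; split_ifs <;> first | rfl | omega | (congr 1; omega)
theorem del_dup : del1 m (dup m s) = s := by
  funext j; simp only [dup, del1]; split_ifs <;> first | rfl | omega | (congr 1; omega)
theorem del_dup' : del1 (m + 1) (dup m s) = s := by
  funext j; simp only [dup, del1]; split_ifs <;> first | rfl | omega | (congr 1; omega)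
theorem del_ins' : del1 m (ins1 (m + 1) (s m) s) = s := by
  funext j; simp only [ins1, del1]
  split_ifs <;> first | rfl | omega | (congr 1; omega)

theorem ins_ins1 : ins1 m c (ins1 (m + e) c' s) = ins1 (m + e + 1) c' (ins1 m c s) := by
  funext j; simp only [ins1]; split_ifs <;> first | rfl | omega | (congr 1; omega)
theorem ins_dup1 : ins1 m c (dup (m + e) s) = dup (m + e + 1) (ins1 m c s) := by
  funext j; simp only [ins1, dup]; split_ifs <;> first | rfl | omega | (congr 1; omega)
theorem ins_del1 : ins1 m c (del1 (m + e) s) = del1 (m + e + 1) (ins1 m c s) := by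
  funext j; simp only [ins1, del1]; split_ifs <;> first | rfl | omega | (congr 1; omega)
theorem dup_ins1 : dup m (ins1 (m + e + 1) c s) = ins1 (m + e + 1 + 1) c (dup m s) := by
  funext j; simp only [ins1, dup]; split_ifs <;> first | rfl | omega | (congr 1; omega)
theorem dup_dup1 : dup m (dup (m + e) s) = dup (m + e + 1) (dup m s) := by
  funext j; simp only [dup]; split_ifs <;> first | rfl | omega | (congr 1; omega)
theorem dup_del1 : dup m (del1 (m + e + 1) s) = del1 (m + e + 1 + 1) (dup m s) := by
  funext j; simp only [dup, del1]; split_ifs <;> first | rfl | omega | (congr 1; omega)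
theorem del_ins1 : del1 m (ins1 (m + e + 1) c s) = ins1 (m + e) c (del1 m s) := by
  funext j; simp only [ins1, del1]; split_ifs <;> first | rfl | omega | (congr 1; omega)
theorem del_dup1 : del1 m (dup (m + e + 1) s) = dup (m + e) (del1 m s) := by
  funext j; simp only [dup, del1]; split_ifs <;> first | rfl | omega | (congr 1; omega)
theorem del_del1 : del1 m (del1 (m + e + 1) s) = del1 (m + e) (del1 m s) := by
  funext j; simp only [del1]; split_ifs <;> first | rfl | omega | (congr 1; omega)

end states

variable {K : Type*} [Field K] (r : K)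

/-- endomorphisms of the space of functions of the state -/
abbrev EndS (K : Type*) [Field K] := Module.End K (St → K)

def cupE (m : ℕ) : EndS K where
  toFun F s := ∑ c, F (ins1 m c s)
  map_add' F G := by funext s; simp [Finset.sum_add_distrib]
  map_smul' x F := by funext s; simp [Finset.mul_sum]

def cupO (m : ℕ) : EndS K where
  toFun F s := r * F (dup m s)
  map_add' F G := by funext s; simp [mul_add]
  map_smul' x F := by funext s; simp only [Pi.smul_apply, smul_eq_mul, RingHom.id_apply]; ring

def capE (m : ℕ) : EndS K where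
  toFun F s := r⁻¹ * F (del1 m s)
  map_add' F G := by funext s; simp [mul_add]
  map_smul' x F := by funext s; simp only [Pi.smul_apply, smul_eq_mul, RingHom.id_apply]; ring

def capO (m : ℕ) : EndS K where
  toFun F s := if s m = s (m + 1) then F (del1 m s) else 0
  map_add' F G := by funext s; simp only [Pi.add_apply]; split_ifs <;> simp
  map_smul' x F := by
    funext s; simp only [Pi.smul_apply, smul_eq_mul, RingHom.id_apply]; split_ifs <;> simp

def UU (i : ℕ) : EndS K := if i % 2 = 0 then cupE (i / 2) else cupO r (i / 2)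
def NN (i : ℕ) : EndS K := if i % 2 = 0 then capE r (i / 2) else capO (i / 2)

theorem UU_even (m : ℕ) : UU r (2 * m) = cupE m := by
  have h1 : 2 * m / 2 = m := by omega
  simp [UU, h1]
theorem UU_odd (m : ℕ) : UU r (2 * m + 1) = cupO r m := by
  have h1 : (2 * m + 1) / 2 = m := by omega
  have h2 : (2 * m + 1) % 2 = 1 := by omega
  simp [UU, h1, h2]
theorem NN_even (m : ℕ) : NN r (2 * m) = capE r m := by
  have h1 : 2 * m / 2 = m := by omega
  simp [NN, h1]
theorem NN_odd (m : ℕ) : NN r (2 * m + 1) = capO m := by
  have h1 : (2 * m + 1) / 2 = m := by omega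
  have h2 : (2 * m + 1) % 2 = 1 := by omega
  simp [NN, h1, h2]

theorem cupE_apply (m : ℕ) (F : St → K) (s : St) : cupE m F s = ∑ c, F (ins1 m c s) := rfl
theorem cupO_apply (m : ℕ) (F : St → K) (s : St) : cupO r m F s = r * F (dup m s) := rfl
theorem capE_apply (m : ℕ) (F : St → K) (s : St) : capE r m F s = r⁻¹ * F (del1 m s) := rfl
theorem capO_apply (m : ℕ) (F : St → K) (s : St) :
    capO m F s = if s m = s (m + 1) then F (del1 m s) else 0 := rfl

theorem zig_UN (hr : r ≠ 0) (i : ℕ) : UU r (i + 1) * NN r i = 1 := by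
  obtain ⟨m, rfl | rfl⟩ := Nat.even_or_odd' i
  · rw [UU_odd, NN_even]
    refine LinearMap.ext fun F => funext fun s => ?_
    rw [Module.End.mul_apply, cupO_apply, capE_apply, del_dup, ← mul_assoc, mul_inv_cancel₀ hr,
      one_mul]; rfl
  · rw [show 2 * m + 1 + 1 = 2 * (m + 1) by ring, UU_even, NN_odd]
    refine LinearMap.ext fun F => funext fun s => ?_
    rw [Module.End.mul_apply, cupE_apply]
    rw [Finset.sum_eq_single (s m)]
    · rw [capO_apply, if_pos, del_ins']; rfl
      rw [ins1_self, ins1_lt _ _ _ (by omega)]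
    · intro c _ hc
      rw [capO_apply, if_neg]
      rw [ins1_self, ins1_lt _ _ _ (by omega)]
      exact fun h => hc h.symm
    · intro h; exact absurd (Finset.mem_univ _) h

theorem zag_UN (hr : r ≠ 0) (i : ℕ) : UU r i * NN r (i + 1) = 1 := by
  obtain ⟨m, rfl | rfl⟩ := Nat.even_or_odd' i
  · rw [UU_even, NN_odd]
    refine LinearMap.ext fun F => funext fun s => ?_
    rw [Module.End.mul_apply, cupE_apply]
    rw [Finset.sum_eq_single (s m)]
    · rw [capO_apply, if_pos, del_ins]; rfl
      rw [ins1_self, ins1_succ]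
    · intro c _ hc
      rw [capO_apply, if_neg]
      rw [ins1_self, ins1_succ]
      exact hc
    · intro h; exact absurd (Finset.mem_univ _) h
  · rw [show 2 * m + 1 + 1 = 2 * (m + 1) by ring, UU_odd, NN_even]
    refine LinearMap.ext fun F => funext fun s => ?_
    rw [Module.End.mul_apply, cupO_apply, capE_apply, del_dup', ← mul_assoc, mul_inv_cancel₀ hr,
      one_mul]; rfl

theorem loop_UN (hr : r * r = 3) (hr0 : r ≠ 0) (i : ℕ) : UU r i * NN r i = r • (1 : EndS K) := by
  obtain ⟨m, rfl | rfl⟩ := Nat.even_or_odd' i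
  · rw [UU_even, NN_even]
    refine LinearMap.ext fun F => funext fun s => ?_
    rw [Module.End.mul_apply, cupE_apply]
    simp only [capE_apply, del_ins, Finset.sum_const, Finset.card_univ, ZMod.card, nsmul_eq_mul]
    rw [LinearMap.smul_apply, Pi.smul_apply, smul_eq_mul]
    have : ((3 : ℕ) : K) = r * r := by rw [hr]; norm_num
    rw [this]
    show r * r * (r⁻¹ * F s) = r * F s
    field_simp
  · rw [UU_odd, NN_odd]
    refine LinearMap.ext fun F => funext fun s => ?_
    rw [Module.End.mul_apply, cupO_apply, capO_apply, if_pos (by rw [dup_self, dup_succ]), del_dup]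
    rfl

theorem cupcup_UN (i j : ℕ) : UU r (i + j) * UU r i = UU r i * UU r (i + 2 + j) := by
  obtain ⟨m, rfl | rfl⟩ := Nat.even_or_odd' i <;> obtain ⟨e, rfl | rfl⟩ := Nat.even_or_odd' j
  · rw [show 2 * m + 2 * e = 2 * (m + e) by ring, show 2 * m + 2 + 2 * e = 2 * (m + e + 1) by ring,
      UU_even, UU_even, UU_even]
    refine LinearMap.ext fun F => funext fun s => ?_
    simp only [Module.End.mul_apply, cupE_apply, cupO_apply, capE_apply, capO_apply]
    rw [Finset.sum_comm]
    simp only [ins_ins1]
  · rw [show 2 * m + (2 * e + 1) = 2 * (m + e) + 1 by ring,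
      show 2 * m + 2 + (2 * e + 1) = 2 * (m + e + 1) + 1 by ring, UU_even, UU_odd, UU_odd]
    refine LinearMap.ext fun F => funext fun s => ?_
    simp only [Module.End.mul_apply, cupE_apply, cupO_apply, capE_apply, capO_apply, Finset.mul_sum,
      ins_dup1]
  · rw [show 2 * m + 1 + 2 * e = 2 * (m + e) + 1 by ring,
      show 2 * m + 1 + 2 + 2 * e = 2 * (m + e + 1) + 1 by ring, UU_odd, UU_odd, UU_odd]
    refine LinearMap.ext fun F => funext fun s => ?_
    simp only [Module.End.mul_apply, cupE_apply, cupO_apply, capE_apply, capO_apply, Finset.mul_sum,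
      dup_dup1]
  · rw [show 2 * m + 1 + (2 * e + 1) = 2 * (m + e + 1) by ring,
      show 2 * m + 1 + 2 + (2 * e + 1) = 2 * (m + e + 1 + 1) by ring, UU_odd, UU_even, UU_even]
    refine LinearMap.ext fun F => funext fun s => ?_
    simp only [Module.End.mul_apply, cupE_apply, cupO_apply, capE_apply, capO_apply, Finset.mul_sum,
      dup_ins1]

theorem cupcap_UN (i j : ℕ) : NN r (i + j) * UU r i = UU r i * NN r (i + 2 + j) := by
  obtain ⟨m, rfl | rfl⟩ := Nat.even_or_odd' i <;> obtain ⟨e, rfl | rfl⟩ := Nat.even_or_odd' j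
  · rw [show 2 * m + 2 * e = 2 * (m + e) by ring, show 2 * m + 2 + 2 * e = 2 * (m + e + 1) by ring,
      UU_even, NN_even, NN_even]
    refine LinearMap.ext fun F => funext fun s => ?_
    simp only [Module.End.mul_apply, cupE_apply, cupO_apply, capE_apply, capO_apply, Finset.mul_sum,
      ins_del1]
  · rw [show 2 * m + (2 * e + 1) = 2 * (m + e) + 1 by ring,
      show 2 * m + 2 + (2 * e + 1) = 2 * (m + e + 1) + 1 by ring, UU_even, NN_odd, NN_odd]
    refine LinearMap.ext fun F => funext fun s => ?_
    simp only [Module.End.mul_apply, cupE_apply, cupO_apply, capE_apply, capO_apply, Finset.mul_sum,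
      ins_del1]
    have h1 : ∀ c, ins1 m c s (m + e + 1) = s (m + e) := fun c => by
      rw [ins1_gt _ _ _ (by omega)]; rfl
    have h2 : ∀ c, ins1 m c s (m + e + 1 + 1) = s (m + e + 1) := fun c => by
      rw [ins1_gt _ _ _ (by omega)]; rfl
    simp only [h1, h2]
    by_cases h : s (m + e) = s (m + e + 1) <;> simp [h]
  · rw [show 2 * m + 1 + 2 * e = 2 * (m + e) + 1 by ring,
      show 2 * m + 1 + 2 + 2 * e = 2 * (m + e + 1) + 1 by ring, UU_odd, NN_odd, NN_odd]
    refine LinearMap.ext fun F => funext fun s => ?_
    simp only [Module.End.mul_apply, cupE_apply, cupO_apply, capE_apply, capO_apply, Finset.mul_sum]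
    have h1 : dup m s (m + e + 1) = s (m + e) := by
      rw [dup_gt _ _ (by omega)]; rfl
    have h2 : dup m s (m + e + 1 + 1) = s (m + e + 1) := by
      rw [dup_gt _ _ (by omega)]; rfl
    rw [h1, h2]
    by_cases h : s (m + e) = s (m + e + 1)
    · rw [if_pos h, if_pos h]
      congr 2
      funext j; simp only [dup, del1]
      split_ifs <;> first
        | rfl
        | omega
        | (congr 1; omega)
        | (have hj : j = m + e := by omega
           subst hj; exact h.symm)
    · rw [if_neg h, if_neg h, mul_zero]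
  · rw [show 2 * m + 1 + (2 * e + 1) = 2 * (m + e + 1) by ring,
      show 2 * m + 1 + 2 + (2 * e + 1) = 2 * (m + e + 1 + 1) by ring, UU_odd, NN_even, NN_even]
    refine LinearMap.ext fun F => funext fun s => ?_
    simp only [Module.End.mul_apply, cupE_apply, cupO_apply, capE_apply, capO_apply, Finset.mul_sum,
      dup_del1]
    ring

theorem capcup_UN (i j : ℕ) : UU r (i + 2 + j) * NN r i = NN r i * UU r (i + j) := by
  obtain ⟨m, rfl | rfl⟩ := Nat.even_or_odd' i <;> obtain ⟨e, rfl | rfl⟩ := Nat.even_or_odd' j
  · rw [show 2 * m + 2 * e = 2 * (m + e) by ring, show 2 * m + 2 + 2 * e = 2 * (m + e + 1) by ring,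
      NN_even, UU_even, UU_even]
    refine LinearMap.ext fun F => funext fun s => ?_
    simp only [Module.End.mul_apply, cupE_apply, cupO_apply, capE_apply, capO_apply, Finset.mul_sum,
      del_ins1]
  · rw [show 2 * m + (2 * e + 1) = 2 * (m + e) + 1 by ring,
      show 2 * m + 2 + (2 * e + 1) = 2 * (m + e + 1) + 1 by ring, NN_even, UU_odd, UU_odd]
    refine LinearMap.ext fun F => funext fun s => ?_
    simp only [Module.End.mul_apply, cupE_apply, cupO_apply, capE_apply, capO_apply, Finset.mul_sum,
      del_dup1]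
    ring
  · rw [show 2 * m + 1 + 2 * e = 2 * (m + e) + 1 by ring,
      show 2 * m + 1 + 2 + 2 * e = 2 * (m + e + 1) + 1 by ring, NN_odd, UU_odd, UU_odd]
    refine LinearMap.ext fun F => funext fun s => ?_
    simp only [Module.End.mul_apply, cupE_apply, cupO_apply, capE_apply, capO_apply, Finset.mul_sum]
    have h1 : dup (m + e + 1) s m = s m := dup_le _ _ (by omega)
    have h2 : dup (m + e + 1) s (m + 1) = s (m + 1) := dup_le _ _ (by omega)
    rw [h1, h2]
    by_cases h : s m = s (m + 1)
    · rw [if_pos h, if_pos h, del_dup1]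
    · rw [if_neg h, if_neg h, mul_zero]
  · rw [show 2 * m + 1 + (2 * e + 1) = 2 * (m + e + 1) by ring,
      show 2 * m + 1 + 2 + (2 * e + 1) = 2 * (m + e + 1 + 1) by ring, NN_odd, UU_even, UU_even]
    refine LinearMap.ext fun F => funext fun s => ?_
    simp only [Module.End.mul_apply, cupE_apply, cupO_apply, capE_apply, capO_apply, Finset.mul_sum]
    have h1 : ∀ c, ins1 (m + e + 1 + 1) c s m = s m := fun c => ins1_lt _ _ _ (by omega)
    have h2 : ∀ c, ins1 (m + e + 1 + 1) c s (m + 1) = s (m + 1) := fun c => ins1_lt _ _ _ (by omega)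
    simp only [h1, h2]
    by_cases h : s m = s (m + 1)
    · have h3 : ∀ c, del1 m (ins1 (m + e + 1 + 1) c s) = ins1 (m + e + 1) c (del1 m s) :=
        fun c => del_ins1 m (e + 1) c s
      simp only [h, if_true, h3]
    · simp [h]

theorem capcap_UN (i j : ℕ) : NN r (i + 2 + j) * NN r i = NN r i * NN r (i + j) := by
  obtain ⟨m, rfl | rfl⟩ := Nat.even_or_odd' i <;> obtain ⟨e, rfl | rfl⟩ := Nat.even_or_odd' j
  · rw [show 2 * m + 2 * e = 2 * (m + e) by ring, show 2 * m + 2 + 2 * e = 2 * (m + e + 1) by ring,
      NN_even, NN_even, NN_even]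
    refine LinearMap.ext fun F => funext fun s => ?_
    simp only [Module.End.mul_apply, cupE_apply, cupO_apply, capE_apply, capO_apply, Finset.mul_sum,
      del_del1]
  · rw [show 2 * m + (2 * e + 1) = 2 * (m + e) + 1 by ring,
      show 2 * m + 2 + (2 * e + 1) = 2 * (m + e + 1) + 1 by ring, NN_even, NN_odd, NN_odd]
    refine LinearMap.ext fun F => funext fun s => ?_
    simp only [Module.End.mul_apply, cupE_apply, cupO_apply, capE_apply, capO_apply, Finset.mul_sum]
    have h1 : del1 m s (m + e) = s (m + e + 1) := del1_ge _ _ (by omega)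
    have h2 : del1 m s (m + e + 1) = s (m + e + 1 + 1) := del1_ge _ _ (by omega)
    rw [h1, h2, del_del1]
    by_cases h : s (m + e + 1) = s (m + e + 1 + 1) <;> simp [h]
  · rw [show 2 * m + 1 + 2 * e = 2 * (m + e) + 1 by ring,
      show 2 * m + 1 + 2 + 2 * e = 2 * (m + e + 1) + 1 by ring, NN_odd, NN_odd, NN_odd]
    refine LinearMap.ext fun F => funext fun s => ?_
    simp only [Module.End.mul_apply, cupE_apply, cupO_apply, capE_apply, capO_apply, Finset.mul_sum]
    have h1 : del1 m s (m + e) = s (m + e + 1) := del1_ge _ _ (by omega)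
    have h2 : del1 m s (m + e + 1) = s (m + e + 1 + 1) := del1_ge _ _ (by omega)
    rw [h1, h2, del_del1]
    have h3 : del1 (m + e + 1) s m = s m := del1_lt _ _ (by omega)
    rw [h3]
    rcases Nat.eq_zero_or_pos e with he | he
    · subst he
      have h4 : del1 (m + 0 + 1) s (m + 1) = s (m + 1 + 1) := del1_ge _ _ (by omega)
      rw [h4]
      simp only [Nat.add_zero]
      by_cases h : s (m + 1) = s (m + 1 + 1)
      · by_cases h' : s m = s (m + 1)
        · simp [h, h', h'.trans h]
        · have h'' : ¬ s m = s (m + 1 + 1) := fun e => h' (e.trans h.symm)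
          rw [if_pos h, if_neg h'', if_neg h']
      · by_cases h' : s m = s (m + 1)
        · rw [if_neg h, if_pos h', if_neg h]
        · rw [if_neg h, if_neg h']
    · have h4 : del1 (m + e + 1) s (m + 1) = s (m + 1) := del1_lt _ _ (by omega)
      rw [h4]
      by_cases h : s (m + e + 1) = s (m + e + 1 + 1) <;> by_cases h' : s m = s (m + 1) <;>
        simp [h, h']
  · rw [show 2 * m + 1 + (2 * e + 1) = 2 * (m + e + 1) by ring,
      show 2 * m + 1 + 2 + (2 * e + 1) = 2 * (m + e + 1 + 1) by ring, NN_odd, NN_even, NN_even]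
    refine LinearMap.ext fun F => funext fun s => ?_
    simp only [Module.End.mul_apply, cupE_apply, cupO_apply, capE_apply, capO_apply, Finset.mul_sum]
    have h3 : del1 (m + e + 1 + 1) s m = s m := del1_lt _ _ (by omega)
    have h4 : del1 (m + e + 1 + 1) s (m + 1) = s (m + 1) := del1_lt _ _ (by omega)
    have h5 : del1 m (del1 (m + e + 1 + 1) s) = del1 (m + e + 1) (del1 m s) := del_del1 m (e + 1) s
    rw [h3, h4, h5]
    by_cases h : s m = s (m + 1) <;> simp [h]

/-- The Potts representation is a Temperley-Lieb representation. -/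
theorem TL_UN (A : K) (hA : A ≠ 0) (hr : r * r = 3) (hr0 : r ≠ 0)
    (hAr : r = -(A ^ 2) - (A⁻¹) ^ 2) : TL A (UU r) (NN r) where
  hA := hA
  zig := zig_UN r hr0
  zag := zag_UN r hr0
  loop := fun i => by rw [loop_UN r hr hr0, ← hAr]
  cupcup := cupcup_UN r
  cupcap := cupcap_UN r
  capcup := capcup_UN r
  capcap := capcap_UN r

end Pool.Agent.Lib.Skein3
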