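import Mathlib
import Pool.Agent.Lib.Skein3.Potts

set_option autoImplicit false
set_option linter.unusedTactic false
set_option linter.unreachableTactic false
set_option linter.unusedSimpArgs false

/-!
# Gauss sums: the Potts state sums are monomials `a^m r^d`
-/

noncomputable section

namespace Pool.Agent.Lib.Skein3

open Pool.Agent.Lib.Skein Finset

/-- the primitive cube root of unity `(-1 + r a²)/2` -/
def om (a r : ℂ) : ℂ := (-1 + r * a ^ 2) / 2

variable {a r : ℂ} (ha : a ^ 4 = -1) (hr : r * r = 3)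

include ha hr

theorem om_sq : om a r ^ 2 + om a r + 1 = 0 := by
  unfold om
  linear_combination (r * r / 4) * ha + (-1 / 4) * hr

theorem om_cube : om a r ^ 3 = 1 := by
  linear_combination (om a r - 1) * om_sq ha hr

/-- the additive character of `ZMod 3` -/
def chi : AddChar (ZMod 3) ℂ := AddChar.zmodChar 3 (om_cube ha hr)

theorem chi_zero : chi ha hr 0 = 1 := AddChar.map_zero_eq_one _
theorem chi_one : chi ha hr 1 = om a r := by
  have := AddChar.zmodChar_apply (om_cube ha hr) (1 : ZMod 3)
  rw [show (1 : ZMod 3).val = 1 from rfl, pow_one] at this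
  exact this
theorem chi_two : chi ha hr 2 = om a r ^ 2 := by
  have := AddChar.zmodChar_apply (om_cube ha hr) (2 : ZMod 3)
  rw [show (2 : ZMod 3).val = 2 from rfl] at this
  exact this

omit ha hr in
/-- monomials -/
def Mono (a r z : ℂ) : Prop := ∃ (m : ℕ) (d : ℤ), z = a ^ m * r ^ d

omit ha hr in
theorem Mono.one : Mono a r 1 := ⟨0, 0, by simp⟩

omit ha hr in
theorem Mono.ca : Mono a r a := ⟨1, 0, by simp⟩

omit ha hr in
theorem Mono.cr : Mono a r r := ⟨0, 1, by simp⟩

omit ha hr in
theorem Mono.rinv : Mono a r r⁻¹ := ⟨0, -1, by simp⟩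

include hr in
omit ha in
theorem r_ne : r ≠ 0 := by
  rintro rfl; norm_num at hr

omit hr in
theorem a_ne : a ≠ 0 := by
  rintro rfl; norm_num at ha

omit ha in
theorem Mono.mul {x y : ℂ} (hx : Mono a r x) (hy : Mono a r y) : Mono a r (x * y) := by
  obtain ⟨m, d, rfl⟩ := hx
  obtain ⟨m', d', rfl⟩ := hy
  refine ⟨m + m', d + d', ?_⟩
  rw [pow_add, zpow_add₀ (r_ne hr)]; ring

omit hr in
theorem Mono.neg_one : Mono a r (-1) := ⟨4, 0, by simp [ha]⟩

omit ha in
theorem Mono.three : Mono a r 3 := by
  rw [← hr]; exact Mono.mul hr Mono.cr Mono.cr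

omit ha in
theorem Mono.pow {x : ℂ} (hx : Mono a r x) (n : ℕ) : Mono a r (x ^ n) := by
  induction n with
  | zero => simpa using Mono.one
  | succ n ih => rw [pow_succ]; exact Mono.mul hr ih hx

omit ha in
theorem Mono.prod {ι : Type*} (s : Finset ι) (f : ι → ℂ) (hf : ∀ i ∈ s, Mono a r (f i)) :
    Mono a r (∏ i ∈ s, f i) := by
  classical
  induction s using Finset.induction_on with
  | empty => simpa using Mono.one
  | insert i s hi ih =>
    rw [prod_insert hi]
    exact Mono.mul hr (hf i (mem_insert_self _ _)) (ih (fun j hj => hf j (mem_insert_of_mem hj)))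

theorem gauss_one (c : ZMod 3) : Mono a r (∑ x : ZMod 3, chi ha hr (c • (x * x))) := by
  have h3 : ∀ f : ZMod 3 → ℂ, ∑ x : ZMod 3, f x = f 0 + f 1 + f 2 := by
    intro f; exact Fin.sum_univ_three f
  rw [h3]
  have e1 : (2 : ZMod 3) * 2 = 1 := by decide
  have hom := om_sq ha hr
  fin_cases c
  · show Mono a r (chi ha hr ((0 : ZMod 3) • (0 * 0)) + chi ha hr ((0 : ZMod 3) • (1 * 1)) +
      chi ha hr ((0 : ZMod 3) • (2 * 2)))
    simp only [zero_smul, chi_zero]
    have : (1 + 1 + 1 : ℂ) = 3 := by norm_num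
    rw [this]; exact Mono.three hr
  · show Mono a r (chi ha hr ((1 : ZMod 3) • (0 * 0)) + chi ha hr ((1 : ZMod 3) • (1 * 1)) +
      chi ha hr ((1 : ZMod 3) • (2 * 2)))
    simp only [one_smul, mul_zero, mul_one, e1, chi_zero, chi_one]
    refine ⟨2, 1, ?_⟩
    rw [zpow_one]; unfold om; ring
  · show Mono a r (chi ha hr ((2 : ZMod 3) • (0 * 0)) + chi ha hr ((2 : ZMod 3) • (1 * 1)) +
      chi ha hr ((2 : ZMod 3) • (2 * 2)))
    simp only [smul_eq_mul, mul_zero, mul_one, e1, chi_zero, chi_two]
    refine ⟨6, 1, ?_⟩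
    have : om a r ^ 2 = - om a r - 1 := by linear_combination hom
    rw [zpow_one, this]; unfold om
    linear_combination (-a ^ 2 * r) * ha

/-- Quadratic Gauss sums over `ZMod 3` are monomials. -/
theorem gauss_sum (V : Type) [AddCommGroup V] [Module (ZMod 3) V] [Fintype V]
    (Q : QuadraticForm (ZMod 3) V) : Mono a r (∑ v : V, chi ha hr (Q v)) := by
  classical
  have : Invertible (2 : ZMod 3) := ⟨2, by decide, by decide⟩
  have : Module.Finite (ZMod 3) V := Module.Finite.of_finite
  obtain ⟨w, ⟨e⟩⟩ := QuadraticForm.equivalent_weightedSumSquares Q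
  have h1 : ∑ v : V, chi ha hr (Q v) = ∑ x : Fin (Module.finrank (ZMod 3) V) → ZMod 3,
      chi ha hr (QuadraticMap.weightedSumSquares (ZMod 3) w x) := by
    refine Fintype.sum_equiv e.toEquiv _ _ (fun v => ?_)
    rw [← e.map_app v]
    rfl
  rw [h1]
  have h2 : ∀ x : Fin (Module.finrank (ZMod 3) V) → ZMod 3,
      chi ha hr (QuadraticMap.weightedSumSquares (ZMod 3) w x) =
        ∏ i, chi ha hr (w i • (x i * x i)) := by
    intro x
    rw [QuadraticMap.weightedSumSquares_apply]
    have : ∀ (t : Finset (Fin (Module.finrank (ZMod 3) V))) (f : Fin (Module.finrank (ZMod 3) V) → ZMod 3),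
        chi ha hr (∑ i ∈ t, f i) = ∏ i ∈ t, chi ha hr (f i) := by
      intro t f
      induction t using Finset.induction_on with
      | empty => simp
      | insert i t hi ih => rw [Finset.sum_insert hi, Finset.prod_insert hi, AddChar.map_add_eq_mul, ih]
    exact this _ _
  simp only [h2]
  have h3 := Finset.prod_univ_sum
    (t := fun _ : Fin (Module.finrank (ZMod 3) V) => (Finset.univ : Finset (ZMod 3)))
    (f := fun i t => chi ha hr (w i • (t * t)))
  rw [Fintype.piFinset_univ] at h3
  rw [← h3]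
  exact Mono.prod hr _ _ (fun i _ => gauss_one ha hr (w i))

end Pool.Agent.Lib.Skein3
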