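import Mathlib
import Pool.Agent.Lib.Skein3.Gauss

set_option autoImplicit false
set_option linter.unusedTactic false
set_option linter.unreachableTactic false
set_option linter.unusedSimpArgs false

/-!
# The state sums are Gauss sums
-/

noncomputable section

namespace Pool.Agent.Lib.Skein3

open Pool.Agent.Lib.Skein Finset

variable {a r : ℂ} (ha : a ^ 4 = -1) (hr : r * r = 3)

/-- functions of the state given by Gauss sums -/
def IsG (f : St → ℂ) : Prop :=
  ∃ (V : Type) (_ : AddCommGroup V) (_ : Module (ZMod 3) V) (_ : Fintype V)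
    (Q : QuadraticForm (ZMod 3) (St × V)) (κ : ℂ), Mono a r κ ∧
      ∀ s, f s = κ * ∑ v : V, chi ha hr (Q (s, v))

theorem isG_one : IsG ha hr (fun _ => 1) := by
  refine ⟨PUnit, inferInstance, inferInstance, inferInstance, 0, 1, Mono.one, fun s => ?_⟩
  simp

theorem isG_lin (f : St → ℂ) (hf : IsG ha hr f) (κ : ℂ) (hκ : Mono a r κ)
    (L : St →ₗ[ZMod 3] St) (q : QuadraticForm (ZMod 3) St) :
    IsG ha hr (fun s => κ * (chi ha hr (q s) * f (L s))) := by
  obtain ⟨V, i1, i2, i3, Q, κ', hκ', h⟩ := hf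
  refine ⟨V, i1, i2, i3, q.comp (LinearMap.fst (ZMod 3) St V) +
    Q.comp (L.prodMap LinearMap.id), κ * κ', Mono.mul hr hκ hκ', fun s => ?_⟩
  show κ * (chi ha hr (q s) * f (L s)) = _
  have e1 : ∑ v : V, chi ha hr ((q.comp (LinearMap.fst (ZMod 3) St V) +
      Q.comp (L.prodMap LinearMap.id)) (s, v)) =
      chi ha hr (q s) * ∑ v : V, chi ha hr (Q (L s, v)) := by
    rw [mul_sum]
    refine sum_congr rfl (fun v _ => ?_)
    simp only [_root_.add_apply, QuadraticMap.comp_apply, AddChar.map_add_eq_mul,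
      LinearMap.fst_apply, LinearMap.prodMap_apply, LinearMap.id_apply]
  rw [e1, h]
  ring

theorem isG_sum (f : St → ℂ) (hf : IsG ha hr f) (κ : ℂ) (hκ : Mono a r κ)
    (L : St × ZMod 3 →ₗ[ZMod 3] St) (q : QuadraticForm (ZMod 3) (St × ZMod 3)) :
    IsG ha hr (fun s => κ * ∑ c : ZMod 3, chi ha hr (q (s, c)) * f (L (s, c))) := by
  obtain ⟨V, i1, i2, i3, Q, κ', hκ', h⟩ := hf
  let p1 : St × (ZMod 3 × V) →ₗ[ZMod 3] St × ZMod 3 :=
    LinearMap.prod (LinearMap.fst (ZMod 3) St (ZMod 3 × V))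
      ((LinearMap.fst (ZMod 3) (ZMod 3) V).comp (LinearMap.snd (ZMod 3) St (ZMod 3 × V)))
  let p2 : St × (ZMod 3 × V) →ₗ[ZMod 3] St × V :=
    LinearMap.prod (L.comp p1)
      ((LinearMap.snd (ZMod 3) (ZMod 3) V).comp (LinearMap.snd (ZMod 3) St (ZMod 3 × V)))
  refine ⟨ZMod 3 × V, inferInstance, inferInstance, inferInstance, q.comp p1 + Q.comp p2, κ * κ',
    Mono.mul hr hκ hκ', fun s => ?_⟩
  have e1 : ∑ x : ZMod 3 × V, chi ha hr ((q.comp p1 + Q.comp p2) (s, x)) =
      ∑ c : ZMod 3, chi ha hr (q (s, c)) * ∑ v : V, chi ha hr (Q (L (s, c), v)) := by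
    rw [Fintype.sum_prod_type]
    refine sum_congr rfl (fun c _ => ?_)
    rw [mul_sum]
    refine sum_congr rfl (fun v _ => ?_)
    rw [_root_.add_apply, AddChar.map_add_eq_mul]
    rfl
  rw [e1]
  show κ * ∑ c : ZMod 3, chi ha hr (q (s, c)) * f (L (s, c)) = _
  rw [mul_sum, mul_sum]
  refine sum_congr rfl (fun c _ => ?_)
  rw [h]; ring

/-! linear maps on states -/

def ins1L (m : ℕ) : St × ZMod 3 →ₗ[ZMod 3] St where
  toFun p := ins1 m p.2 p.1
  map_add' p q := by funext j; simp only [ins1, Pi.add_apply, Prod.fst_add, Prod.snd_add]; split_ifs <;> rfl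
  map_smul' x p := by
    funext j; simp only [ins1, Pi.smul_apply, Prod.smul_fst, Prod.smul_snd, RingHom.id_apply]
    split_ifs <;> rfl

def updL (m : ℕ) : St × ZMod 3 →ₗ[ZMod 3] St where
  toFun p := Function.update p.1 m p.2
  map_add' p q := by
    funext j; simp only [Function.update_apply, Pi.add_apply, Prod.fst_add, Prod.snd_add]
    split_ifs <;> rfl
  map_smul' x p := by
    funext j
    simp only [Function.update_apply, Pi.smul_apply, Prod.smul_fst, Prod.smul_snd, RingHom.id_apply]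
    split_ifs <;> rfl

def dupL (m : ℕ) : St →ₗ[ZMod 3] St where
  toFun s := dup m s
  map_add' p q := by funext j; simp only [dup, Pi.add_apply]; split_ifs <;> rfl
  map_smul' x p := by
    funext j; simp only [dup, Pi.smul_apply, RingHom.id_apply]; split_ifs <;> rfl

def del1L (m : ℕ) : St →ₗ[ZMod 3] St where
  toFun s := del1 m s
  map_add' p q := by funext j; simp only [del1, Pi.add_apply]; split_ifs <;> rfl
  map_smul' x p := by
    funext j; simp only [del1, Pi.smul_apply, RingHom.id_apply]; split_ifs <;> rfl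

/-- the coordinate `s m - s (m+1)` -/
def difL (m : ℕ) : St →ₗ[ZMod 3] ZMod 3 :=
  LinearMap.proj (R := ZMod 3) (φ := fun _ : ℕ => ZMod 3) m -
    LinearMap.proj (R := ZMod 3) (φ := fun _ : ℕ => ZMod 3) (m + 1)

/-- the coordinate `s m - c` -/
def difL' (m : ℕ) : St × ZMod 3 →ₗ[ZMod 3] ZMod 3 :=
  (LinearMap.proj (R := ZMod 3) (φ := fun _ : ℕ => ZMod 3) m).comp (LinearMap.fst (ZMod 3) St (ZMod 3)) -
    LinearMap.snd (ZMod 3) St (ZMod 3)

/-- the parameter `A` of the bracket -/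
def AA (a r : ℂ) : ℂ := -(a ^ 3) * om a r

include ha hr

theorem AA_inv : (AA a r)⁻¹ = a * om a r ^ 2 := by
  apply inv_eq_of_mul_eq_one_right
  unfold AA
  linear_combination (-om a r ^ 3) * ha + om_cube ha hr

theorem AA_ne : AA a r ≠ 0 := by
  intro h
  have h1 := AA_inv ha hr
  have h2 : AA a r * (a * om a r ^ 2) = 1 := by
    unfold AA
    linear_combination (-om a r ^ 3) * ha + om_cube ha hr
  rw [h, zero_mul] at h2
  exact zero_ne_one h2

theorem AA_r : r = -(AA a r ^ 2) - ((AA a r)⁻¹) ^ 2 := by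
  rw [AA_inv ha hr]
  have h1 := om_sq ha hr
  have h2 := om_cube ha hr
  have h3 : 1 + 2 * om a r = r * a ^ 2 := by unfold om; ring
  unfold AA
  linear_combination (a ^ 2 * om a r ^ 2 + r) * ha + (a ^ 2 * om a r) * h2 + a ^ 2 * h1 * (-1) +
    a ^ 2 * h3

theorem AA_cube : AA a r ^ 3 = -a := by
  have h2 := om_cube ha hr
  unfold AA
  linear_combination (-(a ^ 5) * om a r ^ 3 + a * om a r ^ 3) * ha - a * h2

theorem AA_12 : AA a r ^ 8 - AA a r ^ 4 + 1 = 0 := by
  have h1 := om_sq ha hr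
  have h2 := om_cube ha hr
  have h4 : AA a r ^ 4 = - om a r := by
    have : AA a r ^ 4 = AA a r ^ 3 * AA a r := by ring
    rw [this, AA_cube ha hr]
    unfold AA
    linear_combination (om a r) * ha
  have h8 : AA a r ^ 8 = om a r ^ 2 := by
    have : AA a r ^ 8 = (AA a r ^ 4) ^ 2 := by ring
    rw [this, h4]; ring
  rw [h8, h4]
  linear_combination h1

theorem chi_sq (x : ZMod 3) : chi ha hr (x * x) = if x = 0 then 1 else om a r := by
  fin_cases x
  · show chi ha hr ((0 : ZMod 3) * 0) = if (0 : ZMod 3) = 0 then 1 else om a r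
    rw [mul_zero, chi_zero, if_pos rfl]
  · show chi ha hr ((1 : ZMod 3) * 1) = if (1 : ZMod 3) = 0 then 1 else om a r
    rw [mul_one, chi_one, if_neg (by decide)]
  · show chi ha hr ((2 : ZMod 3) * 2) = if (2 : ZMod 3) = 0 then 1 else om a r
    rw [show (2 : ZMod 3) * 2 = 1 by decide, chi_one, if_neg (by decide)]

theorem chi_neg_sq (x : ZMod 3) : chi ha hr (-(x * x)) = if x = 0 then 1 else om a r ^ 2 := by
  fin_cases x
  · show chi ha hr (-((0 : ZMod 3) * 0)) = if (0 : ZMod 3) = 0 then 1 else om a r ^ 2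
    rw [mul_zero, neg_zero, chi_zero, if_pos rfl]
  · show chi ha hr (-((1 : ZMod 3) * 1)) = if (1 : ZMod 3) = 0 then 1 else om a r ^ 2
    rw [show -((1 : ZMod 3) * 1) = 2 by decide, chi_two, if_neg (by decide)]
  · show chi ha hr (-((2 : ZMod 3) * 2)) = if (2 : ZMod 3) = 0 then 1 else om a r ^ 2
    rw [show -((2 : ZMod 3) * 2) = 2 by decide, chi_two, if_neg (by decide)]

theorem chi_sum (x : ZMod 3) : ∑ z : ZMod 3, chi ha hr (z * x) = if x = 0 then 3 else 0 := by
  have h3 : ∀ f : ZMod 3 → ℂ, ∑ x : ZMod 3, f x = f 0 + f 1 + f 2 := by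
    intro f; exact Fin.sum_univ_three f
  rw [h3]
  have h1 := om_sq ha hr
  fin_cases x
  · show chi ha hr ((0 : ZMod 3) * 0) + chi ha hr ((1 : ZMod 3) * 0) + chi ha hr ((2 : ZMod 3) * 0) =
      if (0 : ZMod 3) = 0 then 3 else 0
    rw [mul_zero, mul_zero, mul_zero, chi_zero, if_pos rfl]; norm_num
  · show chi ha hr ((0 : ZMod 3) * 1) + chi ha hr ((1 : ZMod 3) * 1) + chi ha hr ((2 : ZMod 3) * 1) =
      if (1 : ZMod 3) = 0 then 3 else 0
    rw [mul_one, mul_one, mul_one, chi_zero, chi_one, chi_two, if_neg (by decide)]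
    linear_combination h1
  · show chi ha hr ((0 : ZMod 3) * 2) + chi ha hr ((1 : ZMod 3) * 2) + chi ha hr ((2 : ZMod 3) * 2) =
      if (2 : ZMod 3) = 0 then 3 else 0
    rw [zero_mul, one_mul, show (2 : ZMod 3) * 2 = 1 by decide, chi_zero, chi_one, chi_two,
      if_neg (by decide)]
    linear_combination h1

end Pool.Agent.Lib.Skein3
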