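import Mathlib
import Pool.Agent.Lib.Skein3.Closed

set_option autoImplicit false
set_option linter.unusedTactic false
set_option linter.unreachableTactic false
set_option linter.unusedSimpArgs false

/-!
# The state sum of a word is a monomial
-/

noncomputable section

namespace Pool.Agent.Lib.Skein3

open Pool.Agent.Lib.Skein Finset

set_option linter.unusedSectionVars false

variable {a r : ℂ} (ha : a ^ 4 = -1) (hr : r * r = 3)

theorem IsG.of_eq {f g : St → ℂ} (hf : IsG ha hr f) (h : ∀ s, g s = f s) : IsG ha hr g := by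
  have : g = f := funext h
  rw [this]; exact hf

include ha hr

theorem e_even_apply (m : ℕ) (f : St → ℂ) (s : St) :
    (NN r (2 * m) * UU r (2 * m)) f s = r⁻¹ * ∑ c, f (Function.update s m c) := by
  rw [NN_even, UU_even, Module.End.mul_apply, capE_apply, cupE_apply]
  congr 1
  refine sum_congr rfl (fun c _ => ?_)
  congr 1
  funext j; simp only [ins1, del1, Function.update_apply]
  split_ifs <;> first | rfl | omega | (congr 1; omega)

theorem e_odd_apply (m : ℕ) (f : St → ℂ) (s : St) :
    (NN r (2 * m + 1) * UU r (2 * m + 1)) f s = if s m = s (m + 1) then r * f s else 0 := by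
  rw [NN_odd, UU_odd, Module.End.mul_apply, capO_apply, cupO_apply]
  split_ifs with h
  · congr 2
    funext j; simp only [dup, del1]
    split_ifs <;> first
      | rfl
      | omega
      | (congr 1; omega)
      | (have hj : j = m := by omega
         subst hj; exact h.symm)
  · rfl

/-- the general crossing `x + y e` -/
theorem cross_odd (x y : ℂ) (m : ℕ) (f : St → ℂ) (s : St) :
    (x • (1 : EndS ℂ) + y • (NN r (2 * m + 1) * UU r (2 * m + 1))) f s =
      (if s m - s (m + 1) = 0 then x + y * r else x) * f s := by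
  rw [LinearMap.add_apply, LinearMap.smul_apply, LinearMap.smul_apply, Pi.add_apply, Pi.smul_apply,
    Pi.smul_apply, e_odd_apply ha hr]
  simp only [sub_eq_zero]
  show x * f s + y * (if s m = s (m + 1) then r * f s else 0) = _
  split_ifs <;> ring

theorem cross_even (x y : ℂ) (m : ℕ) (f : St → ℂ) (s : St) :
    (x • (1 : EndS ℂ) + y • (NN r (2 * m) * UU r (2 * m))) f s =
      ∑ c, (if s m - c = 0 then x + y * r⁻¹ else y * r⁻¹) * f (Function.update s m c) := by
  rw [LinearMap.add_apply, LinearMap.smul_apply, LinearMap.smul_apply, Pi.add_apply, Pi.smul_apply,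
    Pi.smul_apply, e_even_apply ha hr]
  have h1 : f s = ∑ c, (if s m - c = 0 then f (Function.update s m c) else 0) := by
    simp only [sub_eq_zero]
    rw [Finset.sum_ite_eq]
    simp
  show x * f s + y * (r⁻¹ * ∑ c, f (Function.update s m c)) = _
  rw [h1, mul_sum, mul_sum, mul_sum, ← sum_add_distrib]
  refine sum_congr rfl (fun c _ => ?_)
  split_ifs <;> ring

theorem isG_cup (i : ℕ) (f : St → ℂ) (hf : IsG ha hr f) : IsG ha hr (UU r i f) := by
  obtain ⟨m, rfl | rfl⟩ := Nat.even_or_odd' i
  · refine (isG_sum ha hr f hf 1 Mono.one (ins1L m) 0).of_eq ha hr (fun s => ?_)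
    rw [UU_even, cupE_apply, one_mul]
    refine sum_congr rfl (fun c _ => ?_)
    rw [_root_.zero_apply, AddChar.map_zero_eq_one, one_mul]; rfl
  · refine (isG_lin ha hr f hf r Mono.cr (dupL m) 0).of_eq ha hr (fun s => ?_)
    rw [UU_odd, cupO_apply, _root_.zero_apply, AddChar.map_zero_eq_one, one_mul]; rfl

theorem isG_cap (i : ℕ) (f : St → ℂ) (hf : IsG ha hr f) : IsG ha hr (NN r i f) := by
  obtain ⟨m, rfl | rfl⟩ := Nat.even_or_odd' i
  · refine (isG_lin ha hr f hf r⁻¹ Mono.rinv (del1L m) 0).of_eq ha hr (fun s => ?_)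
    rw [NN_even, capE_apply, _root_.zero_apply, AddChar.map_zero_eq_one, one_mul]; rfl
  · refine (isG_sum ha hr f hf (r⁻¹ * r⁻¹) (Mono.mul hr Mono.rinv Mono.rinv)
      ((del1L m).comp (LinearMap.fst (ZMod 3) St (ZMod 3)))
      (QuadraticMap.linMulLin (LinearMap.snd (ZMod 3) St (ZMod 3))
        ((difL m).comp (LinearMap.fst (ZMod 3) St (ZMod 3))))).of_eq ha hr (fun s => ?_)
    have h1 : ∀ c : ZMod 3, (QuadraticMap.linMulLin (LinearMap.snd (ZMod 3) St (ZMod 3))
        ((difL m).comp (LinearMap.fst (ZMod 3) St (ZMod 3)))) (s, c) = c * (s m - s (m + 1)) :=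
      fun c => rfl
    have h2 : ∀ c : ZMod 3, ((del1L m).comp (LinearMap.fst (ZMod 3) St (ZMod 3))) (s, c) = del1 m s :=
      fun c => rfl
    simp only [h1, h2]
    rw [← sum_mul, chi_sum, NN_odd, capO_apply]
    simp only [sub_eq_zero]
    have hr0 := r_ne hr
    split_ifs
    · have : (r⁻¹ * r⁻¹) * 3 = 1 := by rw [← hr]; field_simp
      rw [← mul_assoc, this, one_mul]
    · simp

theorem id1 : AA a r * r + a * om a r ^ 2 = a := by
  have hsq := om_sq ha hr
  have h12 : 1 + 2 * om a r = r * a ^ 2 := by unfold om; ring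
  unfold AA
  linear_combination (a * om a r) * h12 - a * hsq

theorem id2 : AA a r + a * om a r ^ 2 * r = a ^ 7 := by
  have hsq := om_sq ha hr
  have hcu := om_cube ha hr
  have h12 : 1 + 2 * om a r = r * a ^ 2 := by unfold om; ring
  unfold AA
  linear_combination (a * om a r ^ 2 * r - a ^ 3) * ha + (a * om a r ^ 2 * a ^ 2) * h12
    - a ^ 3 * hsq - 2 * a ^ 3 * hcu

theorem id3 : AA a r = a ^ 7 * om a r := by
  unfold AA
  linear_combination (-a ^ 3 * om a r) * ha

theorem isG_pos (i : ℕ) (f : St → ℂ) (hf : IsG ha hr f) :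
    IsG ha hr ((AA a r • (1 : EndS ℂ) + (AA a r)⁻¹ • (NN r i * UU r i)) f) := by
  have hr0 := r_ne hr
  have hA := AA_inv ha hr
  obtain ⟨m, rfl | rfl⟩ := Nat.even_or_odd' i
  · refine (isG_sum ha hr f hf (a * r⁻¹) (Mono.mul hr Mono.ca Mono.rinv) (updL m)
      (-(QuadraticMap.linMulLin (difL' m) (difL' m)))).of_eq ha hr (fun s => ?_)
    rw [cross_even ha hr, mul_sum]
    refine sum_congr rfl (fun c _ => ?_)
    have h1 : (-(QuadraticMap.linMulLin (difL' m) (difL' m))) (s, c) = -((s m - c) * (s m - c)) := rfl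
    have h2 : updL m (s, c) = Function.update s m c := rfl
    rw [h1, h2, chi_neg_sq, hA]
    split_ifs with h
    · have : AA a r + a * om a r ^ 2 * r⁻¹ = a * r⁻¹ := by
        have := id1 ha hr
        field_simp
        linear_combination this
      rw [this]; ring
    · ring
  · refine (isG_lin ha hr f hf (a ^ 7) (Mono.pow hr Mono.ca 7) LinearMap.id
      (QuadraticMap.linMulLin (difL m) (difL m))).of_eq ha hr (fun s => ?_)
    rw [cross_odd ha hr]
    have h1 : (QuadraticMap.linMulLin (difL m) (difL m)) s =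
      ((s m - s (m + 1)) * (s m - s (m + 1))) := rfl
    rw [h1, chi_sq, hA]
    split_ifs with h
    · rw [id2 ha hr, one_mul]; rfl
    · rw [id3 ha hr, mul_assoc]; rfl

theorem isG_neg (i : ℕ) (f : St → ℂ) (hf : IsG ha hr f) :
    IsG ha hr (((AA a r)⁻¹ • (1 : EndS ℂ) + AA a r • (NN r i * UU r i)) f) := by
  have hr0 := r_ne hr
  have hA := AA_inv ha hr
  obtain ⟨m, rfl | rfl⟩ := Nat.even_or_odd' i
  · refine (isG_sum ha hr f hf (a ^ 7 * r⁻¹) (Mono.mul hr (Mono.pow hr Mono.ca 7) Mono.rinv) (updL m)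
      (QuadraticMap.linMulLin (difL' m) (difL' m))).of_eq ha hr (fun s => ?_)
    rw [cross_even ha hr, mul_sum]
    refine sum_congr rfl (fun c _ => ?_)
    have h1 : (QuadraticMap.linMulLin (difL' m) (difL' m)) (s, c) = ((s m - c) * (s m - c)) := rfl
    have h2 : updL m (s, c) = Function.update s m c := rfl
    rw [h1, h2, chi_sq, hA]
    split_ifs with h
    · have : a * om a r ^ 2 + AA a r * r⁻¹ = a ^ 7 * r⁻¹ := by
        have := id2 ha hr
        field_simp
        linear_combination this
      rw [this]; ring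
    · rw [id3 ha hr]; ring
  · refine (isG_lin ha hr f hf a Mono.ca LinearMap.id
      (-(QuadraticMap.linMulLin (difL m) (difL m)))).of_eq ha hr (fun s => ?_)
    rw [cross_odd ha hr]
    have h1 : (-(QuadraticMap.linMulLin (difL m) (difL m))) s =
      -((s m - s (m + 1)) * (s m - s (m + 1))) := rfl
    rw [h1, chi_neg_sq, hA]
    split_ifs with h
    · have := id1 ha hr
      rw [show a * om a r ^ 2 + AA a r * r = a by linear_combination this, one_mul]; rfl
    · rw [mul_assoc]; rfl

theorem isG_rho (w : Word) : IsG ha hr (rho (AA a r) (UU r) (NN r) w (fun _ => 1)) := by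
  induction w with
  | nil => rw [rho_nil]; exact isG_one ha hr
  | cons l w ih =>
    rw [rho_cons, Module.End.mul_apply]
    obtain ⟨k, i⟩ := l
    match k with
    | .cup => exact isG_cup ha hr i _ ih
    | .cap => exact isG_cap ha hr i _ ih
    | .cr true => exact isG_pos ha hr i _ ih
    | .cr false => exact isG_neg ha hr i _ ih

/-- the bracket of a word -/
def WW (a r : ℂ) (w : Word) : ℂ := rho (AA a r) (UU r) (NN r) w (fun _ => 1) (fun _ => 0)

theorem WW_mono (w : Word) : Mono a r (WW a r w) := by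
  obtain ⟨V, i1, i2, i3, Q, κ, hκ, h⟩ := isG_rho ha hr w
  unfold WW
  rw [h]
  refine Mono.mul hr hκ ?_
  have h1 := gauss_sum ha hr V (Q.comp (LinearMap.inr (ZMod 3) St V))
  exact h1

theorem TL_pot : TL (AA a r) (UU r) (NN r) :=
  TL_UN r (AA a r) (AA_ne ha hr) hr (r_ne hr) (AA_r ha hr)

theorem WW_move {u v s t : Word} (hm : Move s t) : WW a r (u ++ s ++ v) = WW a r (u ++ t ++ v) := by
  unfold WW
  rw [rho_word (TL_pot ha hr) u v hm]

theorem WW_curl (u v : Word) (i : ℕ) :
    WW a r (u ++ [(.cup, i), (.cr false, i)] ++ v) = a * WW a r (u ++ [(.cup, i)] ++ v) := by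
  unfold WW
  rw [rho_append, rho_append, rho_curl (TL_pot ha hr), AA_cube ha hr, neg_neg, rho_append,
    rho_append]
  have : rho (AA a r) (UU r) (NN r) [(.cup, i)] = UU r i := by
    rw [rho_cons, rho_nil, mul_one]; rfl
  rw [this, mul_smul_comm, smul_mul_assoc]
  rfl

theorem WW_three (u v : Word) (i : ℕ) :
    WW a r (u ++ [(.cr true, i), (.cr true, i), (.cr true, i)] ++ v) = a ^ 5 * WW a r (u ++ v) := by
  unfold WW
  rw [rho_append, rho_append, rho_three (TL_pot ha hr) (AA_12 ha hr), AA_cube ha hr, rho_append,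
    mul_smul_comm, smul_mul_assoc, mul_one]
  have : (-a : ℂ) = a ^ 5 := by linear_combination (-a) * ha
  rw [this]
  rfl

theorem WW_triv (n : ℕ) : WW a r (triv n) = r ^ n := by
  have h1 : rho (AA a r) (UU r) (NN r) (triv n) = r ^ n • (1 : EndS ℂ) := by
    induction n with
    | zero => simp [triv, rho]
    | succ n ih =>
      have : triv (n + 1) = [(Skein.Kind.cup, 0), (Skein.Kind.cap, 0)] ++ triv n := by
        simp [triv, List.replicate_succ]
      rw [this, rho_append, ih]
      have h2 : rho (AA a r) (UU r) (NN r) [(Skein.Kind.cup, 0), (Skein.Kind.cap, 0)] =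
          r • (1 : EndS ℂ) := by
        rw [rho_cons, rho_cons, rho_nil, mul_one]
        exact loop_UN r hr (r_ne hr) 0
      rw [h2, mul_smul_comm, smul_mul_assoc, mul_one, smul_smul, pow_succ]
  unfold WW
  rw [h1]
  show r ^ n * 1 = r ^ n
  rw [mul_one]

end Pool.Agent.Lib.Skein3
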