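import Mathlib
import Pool.Agent.Lib.Skein3.Monomial
import Pool.Agent.Lib.Skein.Ind
import Pool.Agent.Lib.Skein.Nec

set_option autoImplicit false

/-!
# The invariant with values in `R[t, t⁻¹]` and the answer for `b₁ = 0` or `b₂ = 0`
-/

noncomputable section

namespace Pool.Agent.Lib.Skein3

open Pool.Agent.Lib.Skein

variable {R : Type*} [CommRing R]

/-- a functional with values in any module -/
theorem indep_of_module {M : Type*} [AddCommGroup M] [Module R M] (a b0 b1 b2 b3 : R) (V : Word → M)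
    (hmove : ∀ r s : Word, Move r s → ∀ u v : Word, Closed (u ++ r ++ v) → Closed (u ++ s ++ v) →
      V (u ++ r ++ v) = V (u ++ s ++ v))
    (hskein : ∀ (u v : Word) (i : ℕ), Closed (u ++ [(.cr true, i)] ++ v) →
      b0 • V (u ++ v) + b1 • V (u ++ [(.cr true, i)] ++ v) +
      b2 • V (u ++ [(.cr true, i), (.cr true, i)] ++ v) +
      b3 • V (u ++ [(.cr true, i), (.cr true, i), (.cr true, i)] ++ v) = 0)
    (hcurl : ∀ (u v : Word) (i : ℕ), Closed (u ++ [(.cup, i)] ++ v) →
      V (u ++ [(.cup, i), (.cr false, i)] ++ v) = a • V (u ++ [(.cup, i)] ++ v))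
    (hT : LinearIndependent R (fun n => V (triv n))) :
    Indep R a b0 b1 b2 b3 0 := by
  classical
  obtain ⟨W, hW⟩ : ∃ W : FLink → M, W = Quot.lift (fun D : Diagram => V D.1) (by
    rintro ⟨D, hD⟩ ⟨E, hE⟩ ⟨u, v, r, s, h, h1, h2⟩
    simp only at h1 h2 ⊢
    subst h1
    subst h2
    exact hmove r s h u v hD hE) := ⟨_, rfl⟩
  obtain ⟨Φ, hΦ⟩ : ∃ Φ : (FLink →₀ R) →ₗ[R] M, Φ = Finsupp.linearCombination R W := ⟨_, rfl⟩
  have hcls : ∀ w : Word, Closed w → Φ (cls R w) = V w := by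
    intro w hw
    rw [hΦ, cls, dif_pos hw]
    refine (Finsupp.linearCombination_single R _ _).trans ?_
    rw [one_smul, hW]
  have hker : relMod R a b0 b1 b2 b3 0 ≤ LinearMap.ker Φ := by
    unfold relMod
    rw [Submodule.span_le]
    rintro x (⟨u, v, i, h, rfl⟩ | ⟨u, v, i, h, rfl⟩)
    · obtain ⟨h0, h2, h3, -⟩ := closed_cr u v i h
      simp only [SetLike.mem_coe, LinearMap.mem_ker, map_add, map_smul, zero_smul, add_zero]
      rw [hcls _ h0, hcls _ h, hcls _ h2, hcls _ h3]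
      exact hskein u v i h
    · simp only [SetLike.mem_coe, LinearMap.mem_ker, map_sub, map_smul]
      rw [hcls _ (closed_cup u v i h), hcls _ h, hcurl u v i h, sub_self]
  unfold Indep
  apply LinearIndependent.of_comp ((relMod R a b0 b1 b2 b3 0).liftQ Φ hker)
  have h1 : ((relMod R a b0 b1 b2 b3 0).liftQ Φ hker) ∘ (fun n : ℕ =>
      (Submodule.Quotient.mk (cls R (triv n)) : (FLink →₀ R) ⧸ relMod R a b0 b1 b2 b3 0)) =
      fun n => V (triv n) := by
    funext n
    simp only [Function.comp, Submodule.liftQ_apply]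
    rw [hcls _ (closed_triv n)]
  rw [h1]
  exact hT

/-- a primitive 8th root of unity -/
def za : ℂ := Complex.exp (2 * Real.pi * Complex.I / 8)

/-- the square root of 3 -/
def zr : ℂ := ((Real.sqrt 3 : ℝ) : ℂ)

theorem za_prim : IsPrimitiveRoot za 8 := by
  have := Complex.isPrimitiveRoot_exp 8 (by norm_num)
  simpa [za] using this

theorem za_four : za ^ 4 = -1 := by
  have h1 : (za ^ 4) ^ 2 = 1 := by rw [← pow_mul]; exact za_prim.pow_eq_one
  have h2 : za ^ 4 ≠ 1 := za_prim.pow_ne_one_of_pos_of_lt (by norm_num) (by norm_num)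
  have h3 : (za ^ 4 - 1) * (za ^ 4 + 1) = 0 := by linear_combination h1
  rcases mul_eq_zero.1 h3 with h | h
  · exact absurd (sub_eq_zero.1 h) h2
  · exact eq_neg_of_add_eq_zero_left h

theorem zr_sq : zr * zr = 3 := by
  unfold zr
  rw [← Complex.ofReal_mul, Real.mul_self_sqrt (by norm_num)]
  norm_num

theorem mono_unique {m m' : ℕ} {d d' : ℤ} (h : za ^ m * zr ^ d = za ^ m' * zr ^ d') :
    d = d' ∧ m ≡ m' [MOD 8] := by
  have hza : ‖za‖ = 1 := za_prim.norm'_eq_one (by norm_num)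
  have h3 : (1 : ℝ) < Real.sqrt 3 := by
    rw [Real.lt_sqrt (by norm_num)]; norm_num
  have hzr : ‖zr‖ = Real.sqrt 3 := by
    unfold zr
    rw [Complex.norm_real, Real.norm_eq_abs, abs_of_pos (by linarith)]
  have h1 := congrArg (fun z : ℂ => ‖z‖) h
  simp only [norm_mul, norm_pow, norm_zpow, hza, hzr, one_pow, one_mul] at h1
  have hd : d = d' := zpow_right_injective₀ (by linarith) h3.ne' h1
  subst hd
  refine ⟨rfl, ?_⟩
  have hz : zr ^ d ≠ 0 := zpow_ne_zero _ (r_ne zr_sq)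
  have h2 := mul_right_cancel₀ hz h
  have h8 : 8 = orderOf za := za_prim.eq_orderOf
  rw [h8]
  have hfin : IsOfFinOrder za :=
    isOfFinOrder_iff_pow_eq_one.2 ⟨8, by norm_num, za_prim.pow_eq_one⟩
  exact (hfin.pow_eq_pow_iff_modEq).1 h2

/-- the exponents of the monomial `WW w` -/
def mm (w : Word) : ℕ := Classical.choose (WW_mono za_four zr_sq w)
def dd (w : Word) : ℤ := Classical.choose (Classical.choose_spec (WW_mono za_four zr_sq w))

theorem WW_eq (w : Word) : WW za zr w = za ^ mm w * zr ^ dd w :=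
  Classical.choose_spec (Classical.choose_spec (WW_mono za_four zr_sq w))

/-- the invariant: phase and dimension -/
def VV (a : R) (w : Word) : ℤ →₀ R := Finsupp.single (dd w) (a ^ mm w)

theorem pow_modEq {a : R} (ha : a ^ 8 = 1) {m m' : ℕ} (h : m ≡ m' [MOD 8]) : a ^ m = a ^ m' := by
  rw [← Nat.div_add_mod m 8, ← Nat.div_add_mod m' 8, pow_add, pow_add, pow_mul, pow_mul, ha,
    one_pow, one_pow, h]

theorem VV_mul {a : R} (ha : a ^ 8 = 1) (k : ℕ) {w w' : Word} (h : WW za zr w' = za ^ k * WW za zr w) :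
    VV a w' = a ^ k • VV a w := by
  rw [WW_eq, WW_eq w, ← mul_assoc, ← pow_add] at h
  obtain ⟨h1, h2⟩ := mono_unique h
  unfold VV
  rw [h1, pow_modEq ha h2, Finsupp.smul_single, smul_eq_mul, pow_add]

theorem VV_triv (a : R) (ha : a ^ 8 = 1) (n : ℕ) : VV a (triv n) = Finsupp.single (n : ℤ) 1 := by
  have h1 : za ^ mm (triv n) * zr ^ dd (triv n) = za ^ 0 * zr ^ (n : ℤ) := by
    rw [← WW_eq, WW_triv za_four zr_sq, pow_zero, one_mul, zpow_natCast]
  obtain ⟨h2, h3⟩ := mono_unique h1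
  unfold VV
  rw [h2, pow_modEq ha h3, pow_zero]

theorem suff8 (a b0 : R) (ha : a ^ 8 = 1) : Indep R a b0 0 0 (-(a ^ 3 * b0)) 0 := by
  apply indep_of_module a b0 0 0 (-(a ^ 3 * b0)) (VV a)
  · intro r s hm u v _ _
    have := VV_mul (R := R) ha 0 (w := u ++ s ++ v) (w' := u ++ r ++ v) (by
      rw [pow_zero, one_mul, WW_move za_four zr_sq hm])
    rw [this, pow_zero, one_smul]
  · intro u v i _
    rw [VV_mul (R := R) ha 5 (WW_three za_four zr_sq u v i)]
    simp only [zero_smul, add_zero, smul_smul]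
    rw [show -(a ^ 3 * b0) * a ^ 5 = -b0 by linear_combination (-b0) * ha, neg_smul, add_neg_cancel]
  · intro u v i _
    have := VV_mul (R := R) ha 1 (w := u ++ [(.cup, i)] ++ v)
      (w' := u ++ [(.cup, i), (.cr false, i)] ++ v) (by
      rw [pow_one, WW_curl za_four zr_sq])
    rw [this, pow_one]
  · have h1 : (fun n : ℕ => VV a (triv n)) = fun n : ℕ => Finsupp.single (n : ℤ) (1 : R) :=
      funext fun n => VV_triv a ha n
    rw [h1]
    have h2 := (Finsupp.basisSingleOne (R := R) (ι := ℤ)).linearIndependent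
    have h3 := h2.comp (fun n : ℕ => (n : ℤ)) Nat.cast_injective
    have h4 : ((Finsupp.basisSingleOne (R := R) (ι := ℤ)) ∘ fun n : ℕ => (n : ℤ)) =
        fun n : ℕ => Finsupp.single (n : ℤ) (1 : R) := by
      funext n
      simp [Function.comp]
    rw [h4] at h3
    exact h3

/-- **The answer for `b₁ = 0` or `b₂ = 0`, over every commutative ring.** -/
theorem slice (a b0 b1 b2 b3 binf : R) (ha : IsUnit a) (hb0 : IsUnit b0) (hb3 : IsUnit b3)
    (hb : b1 = 0 ∨ b2 = 0) :
    Indep R a b0 b1 b2 b3 binf ↔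
      b1 = 0 ∧ b2 = 0 ∧ binf = 0 ∧ b3 = -(a ^ 3 * b0) ∧ a ^ 8 = 1 := by
  constructor
  · intro h
    obtain ⟨h1, h2, h3, h4⟩ := nec a b0 b1 b2 b3 binf ha h
    have h5 : b1 = 0 ∧ b2 = 0 := by
      rcases hb with h | h
      · refine ⟨h, ?_⟩
        rw [h, mul_zero] at h3
        exact (hb3.mul_left_eq_zero).1 h3.symm
      · refine ⟨?_, h⟩
        rw [h, zero_mul] at h3
        exact (hb0.mul_right_eq_zero).1 h3
    obtain ⟨rfl, rfl⟩ := h5
    have h6 : b3 = -(a ^ 3 * b0) := by linear_combination h2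
    refine ⟨rfl, rfl, h1, h6, ?_⟩
    rw [h6] at h4
    have h7 : (b0 ^ 2) * (a ^ 8 - 1) = 0 := by linear_combination -h4
    have h8 := ((hb0.pow 2).mul_right_eq_zero).1 h7
    exact sub_eq_zero.1 h8
  · rintro ⟨rfl, rfl, rfl, rfl, h⟩
    exact suff8 a b0 h

end Pool.Agent.Lib.Skein3
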